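import Mathlib
import Pool.Agent.H370R3.SphereTools

set_option autoImplicit false

/-!
# Borsuk graphs of spheres and homomorphisms between them
-/

namespace Pool.Agent.Helper55K1.BG

open Metric InnerProductGeometry Pool.Agent.H370R3.SphereTools
open scoped RealInnerProductSpace

/-- the geodesic distance of the unit sphere `S^m` in `ℝ^(m+1)` -/
noncomputable def gd {m : ℕ} (x y : Sph m) : ℝ := angle (x : E (m + 1)) (y : E (m + 1))

/-- The Borsuk graph `B(S^m; β)`: two points are adjacent if their geodesic distance is at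
least `β`. -/
def borsuk (m : ℕ) (β : ℝ) : SimpleGraph (Sph m) where
  Adj x y := x ≠ y ∧ β ≤ gd x y
  symm := ⟨fun x y h => ⟨h.1.symm, by
    have h2 := h.2
    unfold gd at h2 ⊢
    rwa [angle_comm]⟩⟩
  loopless := ⟨fun x h => h.1 rfl⟩

/-- the supremum of the `α` for which there is a homomorphism `B(S^k; r) → B(S^n; α)` -/
noncomputable def alphaStar (k n : ℕ) (r : ℝ) : ℝ :=
  sSup {α : ℝ | 0 < α ∧ α ≤ Real.pi ∧ Nonempty (borsuk k r →g borsuk n α)}

theorem norm_sph {m : ℕ} (x : Sph m) : ‖(x : E (m + 1))‖ = 1 := mem_sphere_zero_iff_norm.1 x.2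

theorem gd_eq {m : ℕ} (x y : Sph m) : gd x y = Real.arccos ⟪(x : E (m + 1)), (y : E (m + 1))⟫ := by
  unfold gd angle
  rw [norm_sph, norm_sph, mul_one, div_one]

theorem inner_le_one {m : ℕ} (x y : Sph m) :
    -1 ≤ ⟪(x : E (m + 1)), (y : E (m + 1))⟫ ∧ ⟪(x : E (m + 1)), (y : E (m + 1))⟫ ≤ 1 := by
  have h := abs_real_inner_le_norm (x : E (m + 1)) (y : E (m + 1))
  rw [norm_sph, norm_sph, mul_one] at h
  exact abs_le.1 h

theorem gd_self {m : ℕ} (x : Sph m) : gd x x = 0 := by
  rw [gd_eq, real_inner_self_eq_norm_sq, norm_sph]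
  simp

theorem le_gd_iff {m : ℕ} (x y : Sph m) {r : ℝ} (h0 : 0 ≤ r) (h1 : r ≤ Real.pi) :
    r ≤ gd x y ↔ ⟪(x : E (m + 1)), (y : E (m + 1))⟫ ≤ Real.cos r := by
  rw [gd_eq]
  constructor
  · intro h
    have h2 := Real.cos_le_cos_of_nonneg_of_le_pi h0 (Real.arccos_le_pi _) h
    rwa [Real.cos_arccos (inner_le_one x y).1 (inner_le_one x y).2] at h2
  · intro h
    have h2 := Real.arccos_le_arccos h
    rwa [Real.arccos_cos h0 h1] at h2

/-- a homomorphism turns distance at least `r` into distance at least `α` -/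
theorem hom_iff {k n : ℕ} {r α : ℝ} (hr : 0 < r) (hr1 : r ≤ Real.pi) (hα : 0 < α)
    (hα1 : α ≤ Real.pi) (f : Sph k → Sph n) :
    (∀ x y, (borsuk k r).Adj x y → (borsuk n α).Adj (f x) (f y)) ↔
      ∀ x y : Sph k, ⟪(x : E (k + 1)), (y : E (k + 1))⟫ ≤ Real.cos r →
        ⟪(f x : E (n + 1)), (f y : E (n + 1))⟫ ≤ Real.cos α := by
  have key : ∀ {m : ℕ} (x y : Sph m) {β : ℝ}, 0 < β → β ≤ Real.pi →
      ((borsuk m β).Adj x y ↔ ⟪(x : E (m + 1)), (y : E (m + 1))⟫ ≤ Real.cos β) := by
    intro m x y β h0 h1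
    rw [← le_gd_iff x y h0.le h1]
    constructor
    · exact fun h => h.2
    · intro h
      refine ⟨?_, h⟩
      rintro rfl
      rw [gd_self] at h
      linarith
  constructor
  · intro h x y hxy
    exact (key _ _ hα hα1).1 (h x y ((key x y hr hr1).2 hxy))
  · intro h x y hxy
    exact (key _ _ hα hα1).2 (h x y ((key x y hr hr1).1 hxy))

/-- **The averaging lemma.**  Let `f : S^k → S^n` send points at distance at least `r < π` to
points with inner product at most `s`, and let `Φ` be any map from `S^n` to a real vector space of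
dimension at most `k`.  Then there are two probability measures with finite support on `S^k`, such
that the images of a point of the first and of a point of the second have inner product at most
`s`, and such that `Φ ∘ f` has the same mean for both. -/
theorem averaging {k n : ℕ} {r s : ℝ} (hr1 : r < Real.pi) (hr0 : 0 < r)
    (f : Sph k → Sph n)
    (hf : ∀ x y : Sph k, ⟪(x : E (k + 1)), (y : E (k + 1))⟫ ≤ Real.cos r →
      ⟪(f x : E (n + 1)), (f y : E (n + 1))⟫ ≤ s)
    {κ : Type} [Fintype κ] (hκ : Fintype.card κ ≤ k) (Φ : Sph n → κ → ℝ) :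
    ∃ (t : Finset (Sph k)) (a b : Sph k → ℝ), (∀ i, 0 ≤ a i) ∧ (∀ i, 0 ≤ b i) ∧
      ∑ i ∈ t, a i = 1 ∧ ∑ i ∈ t, b i = 1 ∧
      (∀ i j, a i ≠ 0 → b j ≠ 0 → ⟪(f i : E (n + 1)), (f j : E (n + 1))⟫ ≤ s) ∧
      ∀ c : κ, ∑ i ∈ t, a i * Φ (f i) c = ∑ i ∈ t, b i * Φ (f i) c := by
  classical
  -- the mesh
  have hcos : -1 < Real.cos r := by
    rw [← Real.cos_pi]
    exact Real.cos_lt_cos_of_nonneg_of_le_pi hr0.le le_rfl hr1
  obtain ⟨ε, hε, hε2⟩ : ∃ ε : ℝ, 0 < ε ∧ 2 * ε ^ 2 - 1 ≤ Real.cos r := by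
    refine ⟨√((1 + Real.cos r) / 2), Real.sqrt_pos.2 (by linarith), ?_⟩
    rw [Real.sq_sqrt (by linarith)]
    linarith
  obtain ⟨t, -, ht⟩ := (isCompact_univ (X := Sph k)).elim_finite_subcover_image
    (b := Set.univ) (c := fun x => ball x ε) (fun x _ => isOpen_ball)
    (fun x _ => Set.mem_iUnion₂.2 ⟨x, Set.mem_univ x, mem_ball_self hε⟩)
  obtain ⟨htf, htc⟩ := ht
  set T : Finset (Sph k) := htf.toFinset with hT
  -- the weights
  set ω : Sph k → Sph k → ℝ := fun p x => max 0 (ε - dist x p) with hω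
  have hω0 : ∀ p x, 0 ≤ ω p x := fun p x => le_max_left _ _
  have hωc : ∀ p, Continuous (ω p) := fun p => by
    show Continuous fun x => max 0 (ε - dist x p)
    fun_prop
  set W : Sph k → ℝ := fun x => ∑ p ∈ T, ω p x with hW
  have hWc : Continuous W := continuous_finsetSum _ fun p _ => hωc p
  have hWpos : ∀ x, 0 < W x := by
    intro x
    have h1 := htc (Set.mem_univ x)
    obtain ⟨p, hp, hxp⟩ := Set.mem_iUnion₂.1 h1
    apply Finset.sum_pos' (fun q _ => hω0 q x)
    refine ⟨p, htf.mem_toFinset.2 hp, ?_⟩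
    rw [mem_ball] at hxp
    exact lt_max_of_lt_right (by linarith)
  have hne : ∀ x, W x ≠ 0 := fun x => (hWpos x).ne'
  set g : Sph k → κ → ℝ := fun x c => (∑ p ∈ T, ω p x * Φ (f p) c) / W x with hg
  have hgc : Continuous g := by
    refine continuous_pi fun c => ?_
    exact (continuous_finsetSum _ fun p _ => (hωc p).mul continuous_const).div hWc hne
  have hneg : Continuous fun x : Sph k => -x := continuous_neg
  set e : κ ≃ Fin (Fintype.card κ) := Fintype.equivFin κ with he
  obtain ⟨x, hx⟩ := borsuk_ulam hκ (fun x i => g x (e.symm i) - g (-x) (e.symm i)) (by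
      refine continuous_pi fun i => ?_
      exact ((continuous_apply _).comp hgc).sub ((continuous_apply _).comp (hgc.comp hneg))) (by
      intro x
      funext i
      simp)
  refine ⟨T, fun p => ω p x / W x, fun p => ω p (-x) / W (-x),
    fun p => div_nonneg (hω0 _ _) (hWpos _).le, fun p => div_nonneg (hω0 _ _) (hWpos _).le,
    ?_, ?_, ?_, ?_⟩
  · rw [← Finset.sum_div]
    exact div_self (hne x)
  · rw [← Finset.sum_div]
    exact div_self (hne (-x))
  · intro p q hp hq
    apply hf
    refine le_trans ?_ hε2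
    have h1 : dist x p < ε := by
      by_contra hcon
      apply hp
      show max 0 (ε - dist x p) / W x = 0
      rw [max_eq_left (by linarith), zero_div]
    have h2 : dist (-x) q < ε := by
      by_contra hcon
      apply hq
      show max 0 (ε - dist (-x) q) / W (-x) = 0
      rw [max_eq_left (by linarith), zero_div]
    have h3 : ‖(p : E (k + 1)) + (q : E (k + 1))‖ < 2 * ε := by
      have e1 : (p : E (k + 1)) + (q : E (k + 1)) =
          ((p : E (k + 1)) - (x : E (k + 1))) + ((q : E (k + 1)) - ((-x : Sph k) : E (k + 1))) := by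
        have : ((-x : Sph k) : E (k + 1)) = -(x : E (k + 1)) := rfl
        rw [this]
        abel
      rw [e1]
      have e2 : ‖(p : E (k + 1)) - (x : E (k + 1))‖ = dist x p := by
        rw [dist_comm, Subtype.dist_eq, dist_eq_norm]
      have e3 : ‖(q : E (k + 1)) - ((-x : Sph k) : E (k + 1))‖ = dist (-x) q := by
        rw [dist_comm, Subtype.dist_eq, dist_eq_norm]
      calc _ ≤ _ := norm_add_le _ _
        _ < 2 * ε := by rw [e2, e3]; linarith
    have h4 : ‖(p : E (k + 1)) + (q : E (k + 1))‖ ^ 2 < (2 * ε) ^ 2 := by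
      have := norm_nonneg ((p : E (k + 1)) + (q : E (k + 1)))
      nlinarith
    rw [norm_add_sq_real, norm_sph, norm_sph] at h4
    nlinarith
  · intro c
    have h1 := congrFun hx (e c)
    simp only [Equiv.symm_apply_apply, Pi.zero_apply] at h1
    have h2 : g x c = g (-x) c := by linarith
    simp only [hg] at h2
    rw [Finset.sum_div, Finset.sum_div] at h2
    have h3 : ∀ y : Sph k, ∀ p, ω p y * Φ (f p) c / W y = ω p y / W y * Φ (f p) c := by
      intro y p
      ring
    simp only [h3] at h2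
    exact h2

end Pool.Agent.Helper55K1.BG
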