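import Mathlib
import Pool.Agent.Helper55K1.BG.Defs

set_option autoImplicit false

/-!
# Upper bounds
-/

namespace Pool.Agent.Helper55K1.BG

open Metric InnerProductGeometry Pool.Agent.H370R3.SphereTools
open scoped RealInnerProductSpace

theorem inner_sums {n : ℕ} {ι : Type} (t : Finset ι) (a b : ι → ℝ) (u v : ι → E (n + 1)) :
    ⟪∑ i ∈ t, a i • u i, ∑ j ∈ t, b j • v j⟫ = ∑ i ∈ t, ∑ j ∈ t, a i * b j * ⟪u i, v j⟫ := by
  rw [sum_inner]
  apply Finset.sum_congr rfl
  intro i _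
  rw [inner_sum]
  apply Finset.sum_congr rfl
  intro j _
  rw [real_inner_smul_left, real_inner_smul_right]
  ring

/-- no homomorphism with obtuse images -/
theorem no_obtuse {k n : ℕ} (hkn : n < k) {r s : ℝ} (hr0 : 0 < r) (hr1 : r < Real.pi)
    (hs : s < 0) (f : Sph k → Sph n)
    (hf : ∀ x y : Sph k, ⟪(x : E (k + 1)), (y : E (k + 1))⟫ ≤ Real.cos r →
      ⟪(f x : E (n + 1)), (f y : E (n + 1))⟫ ≤ s) : False := by
  obtain ⟨t, a, b, ha, hb, hat, hbt, hab, hΦ⟩ := averaging hr1 hr0 f hf (κ := Fin (n + 1))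
    (by rw [Fintype.card_fin]; omega) (fun y i => (y : E (n + 1)) i)
  have h1 : ∑ i ∈ t, a i • (f i : E (n + 1)) = ∑ i ∈ t, b i • (f i : E (n + 1)) := by
    ext c
    have := hΦ c
    simpa using this
  have h2 : 0 ≤ ⟪∑ i ∈ t, a i • (f i : E (n + 1)), ∑ j ∈ t, b j • (f j : E (n + 1))⟫ := by
    rw [← h1]
    exact real_inner_self_nonneg
  rw [inner_sums] at h2
  have h3 : ∑ i ∈ t, ∑ j ∈ t, a i * b j * ⟪(f i : E (n + 1)), (f j : E (n + 1))⟫ ≤
      ∑ i ∈ t, ∑ j ∈ t, a i * b j * s := by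
    apply Finset.sum_le_sum
    intro i _
    apply Finset.sum_le_sum
    intro j _
    by_cases hi : a i = 0
    · rw [hi]; simp
    · by_cases hj : b j = 0
      · rw [hj]; simp
      · exact mul_le_mul_of_nonneg_left (hab i j hi hj) (mul_nonneg (ha i) (hb j))
  have h4 : ∑ i ∈ t, ∑ j ∈ t, a i * b j * s = s := by
    have : ∀ i ∈ t, ∑ j ∈ t, a i * b j * s = a i * s := by
      intro i _
      rw [← Finset.sum_mul, ← Finset.mul_sum, hbt, mul_one]
    rw [Finset.sum_congr rfl this, ← Finset.sum_mul, hat, one_mul]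
  linarith

/-- the upper bound `π / 2` -/
theorem alphaStar_le {k n : ℕ} (hkn : n < k) {r : ℝ} (hr0 : 0 < r) (hr1 : r < Real.pi) :
    alphaStar k n r ≤ Real.pi / 2 := by
  unfold alphaStar
  apply Real.sSup_le
  · rintro α ⟨h0, h1, ⟨f⟩⟩
    by_contra hcon
    push Not at hcon
    have h2 := (hom_iff hr0 hr1.le h0 h1 f).1 fun x y h => f.map_rel h
    have h3 : Real.cos α < 0 := Real.cos_neg_of_pi_div_two_lt_of_lt hcon (by linarith [Real.pi_pos])
    exact no_obtuse hkn hr0 hr1 h3 f h2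
  · positivity

end Pool.Agent.Helper55K1.BG
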