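import Mathlib
import Pool.Agent.Helper55K1.BG.Upper

set_option autoImplicit false

/-!
# Colourings of Borsuk graphs and homomorphisms onto cross-polytopes
-/

namespace Pool.Agent.Helper55K1.BG

open Metric InnerProductGeometry Pool.Agent.H370R3.SphereTools
open scoped RealInnerProductSpace

/-- two unit vectors with coordinate sum zero and the same smallest coordinate -/
theorem simplex_ineq {N : ℕ} (u v : Fin N → ℝ) (hu : ∑ j, u j = 0) (hv : ∑ j, v j = 0)
    (hu1 : ∑ j, u j ^ 2 = 1) (hv1 : ∑ j, v j ^ 2 = 1) (i : Fin N) (hui : ∀ j, u i ≤ u j)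
    (hvi : ∀ j, v i ≤ v j) : -(((N : ℝ) - 1) / (N + 1)) ≤ ∑ j, u j * v j := by
  have hN : (0 : ℝ) < N := by
    have : 0 < N := i.pos
    exact_mod_cast this
  set a := -(u i) with ha
  set b := -(v i) with hb
  have ha0 : ∀ j, 0 ≤ u j + a := fun j => by linarith [hui j]
  have hb0 : ∀ j, 0 ≤ v j + b := fun j => by linarith [hvi j]
  set z : Fin N → ℝ := fun j => u j + v j + (a + b) with hz
  have hcard : (Finset.univ : Finset (Fin N)).card = N := by simp
  have hS : ∑ j, z j = N * (a + b) := by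
    simp only [hz, Finset.sum_add_distrib, hu, hv, Finset.sum_const, hcard, nsmul_eq_mul]
    ring
  have hA : ∑ j, z j ^ 2 = 2 + 2 * ∑ j, u j * v j + N * (a + b) ^ 2 := by
    have e : ∀ j, z j ^ 2 = u j ^ 2 + v j ^ 2 + 2 * (u j * v j) + 2 * (a + b) * u j +
        2 * (a + b) * v j + (a + b) ^ 2 := fun j => by simp only [hz]; ring
    simp only [e, Finset.sum_add_distrib, ← Finset.mul_sum, hu1, hv1, hu, hv, Finset.sum_const,
      hcard, nsmul_eq_mul]
    ring
  -- first inequality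
  have h1 : 2 + (N : ℝ) * (a ^ 2 + b ^ 2) ≤ ∑ j, z j ^ 2 := by
    have e : ∑ j, ((u j + a) ^ 2 + (v j + b) ^ 2) = 2 + (N : ℝ) * (a ^ 2 + b ^ 2) := by
      have e2 : ∀ j, (u j + a) ^ 2 + (v j + b) ^ 2 = u j ^ 2 + v j ^ 2 + 2 * a * u j +
        2 * b * v j + (a ^ 2 + b ^ 2) := fun j => by ring
      simp only [e2, Finset.sum_add_distrib, ← Finset.mul_sum, hu1, hv1, hu, hv,
        Finset.sum_const, hcard, nsmul_eq_mul]
      ring
    rw [← e]
    apply Finset.sum_le_sum
    intro j _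
    have := mul_nonneg (ha0 j) (hb0 j)
    simp only [hz]
    nlinarith
  -- second inequality
  have h2 : (N * (a + b)) ^ 2 ≤ ((N : ℝ) - 1) * ∑ j, z j ^ 2 := by
    have hzi : z i = 0 := by simp only [hz, ha, hb]; ring
    have e1 : ∑ j, z j = ∑ j ∈ Finset.univ.erase i, z j := by
      rw [← Finset.add_sum_erase _ z (Finset.mem_univ i), hzi, zero_add]
    have e2 : ∑ j, z j ^ 2 = ∑ j ∈ Finset.univ.erase i, z j ^ 2 := by
      rw [← Finset.add_sum_erase _ (fun j => z j ^ 2) (Finset.mem_univ i), hzi]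
      ring
    have e3 := sq_sum_le_card_mul_sum_sq (s := Finset.univ.erase i) (f := z)
    rw [← e1, ← e2, hS, Finset.card_erase_of_mem (Finset.mem_univ i), hcard,
      Nat.cast_sub i.pos] at e3
    simpa using e3
  set A := ∑ j, z j ^ 2 with hAdef
  set c := ∑ j, u j * v j with hc
  have h3 : (N : ℝ) * (a + b) ^ 2 ≤ 2 * (N * (a ^ 2 + b ^ 2)) := by
    nlinarith [mul_nonneg hN.le (sq_nonneg (a - b))]
  -- combine
  have h4 : 0 < (N : ℝ) + 1 := by linarith
  rw [← neg_div, div_le_iff₀ h4]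
  set X := (N : ℝ) * (a + b) ^ 2 with hX
  have h5 : (N * (a + b)) ^ 2 = N * X := by rw [hX]; ring
  rw [h5] at h2
  -- A = 2 + 2c + X, 2 + X/2 ≤ A, N X ≤ (N-1) A
  have h6 : 2 + X / 2 ≤ A := by linarith
  nlinarith

/-- the isometric copy of `ℝ^(k+1)` in the hyperplane of `ℝ^(k+2)` with coordinate sum zero -/
theorem exists_embedding (k : ℕ) : ∃ L : E (k + 1) → Fin (k + 2) → ℝ,
    (∀ x, ∑ j, L x j = 0) ∧ ∀ x y, ∑ j, L x j * L y j = ⟪x, y⟫ := by
  set o : EuclideanSpace ℝ (Fin (k + 2)) := WithLp.toLp 2 (fun _ => (1 : ℝ)) with ho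
  set W : Submodule ℝ (EuclideanSpace ℝ (Fin (k + 2))) := (Submodule.span ℝ {o})ᗮ with hW
  have ho0 : o ≠ 0 := by
    intro h
    have := congrArg (fun x : EuclideanSpace ℝ (Fin (k + 2)) => x 0) h
    simp [ho] at this
  have hdim : Module.finrank ℝ W = k + 1 := by
    have h1 : Fact (Module.finrank ℝ (EuclideanSpace ℝ (Fin (k + 2))) = (k + 1) + 1) :=
      ⟨by simp⟩
    exact Submodule.finrank_orthogonal_span_singleton ho0
  set b : OrthonormalBasis (Fin (k + 1)) ℝ W :=
    (stdOrthonormalBasis ℝ W).reindex (finCongr hdim) with hb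
  have key : ∀ w ∈ W, ∑ j, w j = 0 := by
    intro w hw
    rw [hW, Submodule.mem_orthogonal_singleton_iff_inner_right] at hw
    simpa [PiLp.inner_apply, ho] using hw
  refine ⟨fun x j => (b.repr.symm x : EuclideanSpace ℝ (Fin (k + 2))) j, ?_, ?_⟩
  · intro x
    exact key _ (b.repr.symm x).2
  · intro x y
    have h1 : ⟪(b.repr.symm x : W), (b.repr.symm y : W)⟫ = ⟪x, y⟫ :=
      LinearIsometryEquiv.inner_map_map _ _ _
    rw [← h1, Submodule.coe_inner, PiLp.inner_apply]
    apply Finset.sum_congr rfl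
    intro j _
    rw [RCLike.inner_apply, conj_trivial]
    exact mul_comm _ _

/-- the colouring by the facets of the regular simplex -/
theorem exists_colouring (k : ℕ) : ∃ c : Sph k → Fin (k + 2), ∀ x y : Sph k, c x = c y →
    -(((k : ℝ) + 1) / (k + 3)) ≤ ⟪(x : E (k + 1)), (y : E (k + 1))⟫ := by
  obtain ⟨L, h1, h2⟩ := exists_embedding k
  have hmin : ∀ x : Sph k, ∃ i, ∀ j, L x i ≤ L x j := fun x => Finite.exists_min (L x)
  choose c hc using hmin
  refine ⟨c, fun x y hxy => ?_⟩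
  have hn : ∀ x : Sph k, ∑ j, L x j ^ 2 = 1 := by
    intro x
    have := h2 x x
    rw [real_inner_self_eq_norm_sq, norm_sph, one_pow] at this
    rw [← this]
    exact Finset.sum_congr rfl fun j _ => sq _
  have h3 := simplex_ineq (L x) (L y) (h1 x) (h1 y) (hn x) (hn y) (c x) (hc x)
    (fun j => by rw [hxy]; exact hc y j)
  rw [h2] at h3
  refine le_trans (le_of_eq ?_) h3
  push_cast
  congr 1
  congr 1 <;> ring

/-- the vertices of the cross-polytope -/
theorem exists_cross (n : ℕ) : ∃ P : Fin (n + 1) ⊕ Fin (n + 1) → Sph n, ∀ i j, i ≠ j →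
    ⟪(P i : E (n + 1)), (P j : E (n + 1))⟫ ≤ 0 := by
  refine ⟨fun i => Sum.elim (fun i => ⟨EuclideanSpace.single i 1, by simp⟩)
    (fun i => ⟨-EuclideanSpace.single i 1, by simp⟩) i, ?_⟩
  rintro (i | i) (j | j) hij
  · have : i ≠ j := fun h => hij (by rw [h])
    show ⟪(EuclideanSpace.single i (1 : ℝ) : E (n + 1)), EuclideanSpace.single j (1 : ℝ)⟫ ≤ 0
    rw [EuclideanSpace.inner_single_left]
    simp [this]
  · show ⟪(EuclideanSpace.single i (1 : ℝ) : E (n + 1)), -EuclideanSpace.single j (1 : ℝ)⟫ ≤ 0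
    rw [inner_neg_right, EuclideanSpace.inner_single_left]
    by_cases h : i = j
    · simp [h]
    · simp [h]
  · show ⟪(-EuclideanSpace.single i (1 : ℝ) : E (n + 1)), EuclideanSpace.single j (1 : ℝ)⟫ ≤ 0
    rw [inner_neg_left, EuclideanSpace.inner_single_left]
    by_cases h : i = j
    · simp [h]
    · simp [h]
  · have : i ≠ j := fun h => hij (by rw [h])
    show ⟪(-EuclideanSpace.single i (1 : ℝ) : E (n + 1)), -EuclideanSpace.single j (1 : ℝ)⟫ ≤ 0
    rw [inner_neg_neg, EuclideanSpace.inner_single_left]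
    simp [this]

theorem bddAbove_set (k n : ℕ) (r : ℝ) :
    BddAbove {α : ℝ | 0 < α ∧ α ≤ Real.pi ∧ Nonempty (borsuk k r →g borsuk n α)} :=
  ⟨Real.pi, fun _ h => h.2.1⟩

theorem le_alphaStar {k n : ℕ} (hkn : k ≤ 2 * n) {r : ℝ}
    (hr : Real.arccos (-(((k : ℝ) + 1) / (k + 3))) < r) (hr1 : r < Real.pi) :
    Real.pi / 2 ≤ alphaStar k n r := by
  have hr0 : 0 < r := lt_of_le_of_lt (Real.arccos_nonneg _) hr
  obtain ⟨c, hc⟩ := exists_colouring k
  obtain ⟨P, hP⟩ := exists_cross n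
  obtain ⟨ι⟩ : Nonempty (Fin (k + 2) ↪ Fin (n + 1) ⊕ Fin (n + 1)) :=
    Function.Embedding.nonempty_of_card_le (by
      rw [Fintype.card_sum, Fintype.card_fin, Fintype.card_fin]; omega)
  have hcos : Real.cos r < -(((k : ℝ) + 1) / (k + 3)) := by
    have h1 : ((k : ℝ) + 1) / (k + 3) ≤ 1 := by
      rw [div_le_one (by positivity)]
      linarith
    have h2 := Real.cos_lt_cos_of_nonneg_of_le_pi (Real.arccos_nonneg _) hr1.le hr
    rwa [Real.cos_arccos (by linarith) (by
      have : 0 ≤ ((k : ℝ) + 1) / (k + 3) := by positivity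
      linarith)] at h2
  apply le_csSup (bddAbove_set k n r)
  have hpi := Real.pi_pos
  refine ⟨by linarith, by linarith, ⟨⟨fun x => P (ι (c x)), ?_⟩⟩⟩
  intro x y
  refine (hom_iff hr0 hr1.le (α := Real.pi / 2) (by linarith) (by linarith)
    (fun x => P (ι (c x)))).2 ?_ x y
  intro x y hxy
  rw [Real.cos_pi_div_two]
  apply hP
  intro h
  have h1 := hc x y (ι.injective h)
  linarith

end Pool.Agent.Helper55K1.BG
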