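import Mathlib
import Pool.Agent.Helper55K1.BG.Upper

set_option autoImplicit false

/-!
# A second upper bound, from the quadratic functions on the sphere
-/

namespace Pool.Agent.Helper55K1.BG

open Metric InnerProductGeometry Pool.Agent.H370R3.SphereTools
open scoped RealInnerProductSpace

/-- the quadratic monomial indexed by an unordered pair -/
def quad {n : ℕ} (y : Fin (n + 1) → ℝ) (z : Sym2 (Fin (n + 1))) : ℝ :=
  Sym2.lift ⟨fun i j => y i * y j, fun _ _ => mul_comm _ _⟩ z

theorem quad_mk {n : ℕ} (y : Fin (n + 1) → ℝ) (i j : Fin (n + 1)) :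
    quad y s(i, j) = y i * y j := rfl

theorem sum_sq_sph {n : ℕ} (x : Sph n) : ∑ i, (x : E (n + 1)) i ^ 2 = 1 := by
  have h := norm_sph x
  rw [EuclideanSpace.norm_eq, Real.sqrt_eq_one] at h
  rw [← h]
  apply Finset.sum_congr rfl
  intro i _
  rw [Real.norm_eq_abs, sq_abs]

theorem inner_eq_sum {n : ℕ} (x y : Sph n) :
    ⟪(x : E (n + 1)), (y : E (n + 1))⟫ = ∑ i, (x : E (n + 1)) i * (y : E (n + 1)) i := by
  rw [PiLp.inner_apply]
  apply Finset.sum_congr rfl
  intro i _
  rw [RCLike.inner_apply, conj_trivial]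
  exact mul_comm _ _

/-- the index type of the test functions: linear monomials, and all quadratic ones but one -/
abbrev Idx (n : ℕ) : Type := Fin (n + 1) ⊕ {z : Sym2 (Fin (n + 1)) // z ≠ s(0, 0)}

theorem card_Idx (n : ℕ) : Fintype.card (Idx n) + 1 = (n + 1) + (n + 2).choose 2 := by
  rw [Fintype.card_sum, Fintype.card_fin, Fintype.card_subtype_compl, Fintype.card_subtype_eq,
    Sym2.card, Fintype.card_fin]
  have : 0 < (n + 1 + 1).choose 2 := Nat.choose_pos (by omega)
  have h2 : (n + 2).choose 2 = (n + 1 + 1).choose 2 := rfl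
  omega

/-- no homomorphism whose images have inner product below `1 / (n + 1)`, in large dimension -/
theorem no_small {k n : ℕ} (hkn : (n + 1) + (n + 2).choose 2 ≤ k + 1) {r s : ℝ} (hr0 : 0 < r)
    (hr1 : r < Real.pi) (hs : s < 1 / (n + 1)) (f : Sph k → Sph n)
    (hf : ∀ x y : Sph k, ⟪(x : E (k + 1)), (y : E (k + 1))⟫ ≤ Real.cos r →
      ⟪(f x : E (n + 1)), (f y : E (n + 1))⟫ ≤ s) : False := by
  obtain ⟨t, a, b, ha, hb, hat, hbt, hab, hΦ⟩ := averaging hr1 hr0 f hf (κ := Idx n)
    (by have := card_Idx n; omega)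
    (fun y c => Sum.elim (fun i => (y : E (n + 1)) i) (fun z => quad (y : E (n + 1)) z.1) c)
  have hn : (0 : ℝ) < n + 1 := by positivity
  have hs1 : s < 1 := by
    refine lt_of_lt_of_le hs ?_
    rw [div_le_one hn]
    have : (0 : ℝ) ≤ n := Nat.cast_nonneg n
    linarith
  -- the first moments agree
  have h1 : ∑ i ∈ t, a i • (f i : E (n + 1)) = ∑ i ∈ t, b i • (f i : E (n + 1)) := by
    ext c
    have := hΦ (Sum.inl c)
    simpa using this
  have h2 : 0 ≤ ∑ i ∈ t, ∑ j ∈ t, a i * b j * ⟪(f i : E (n + 1)), (f j : E (n + 1))⟫ := by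
    rw [← inner_sums, ← h1]
    exact real_inner_self_nonneg
  -- the second moments agree
  set M : Fin (n + 1) → Fin (n + 1) → ℝ := fun p q =>
    ∑ i ∈ t, a i * ((f i : E (n + 1)) p * (f i : E (n + 1)) q) with hM
  set M' : Fin (n + 1) → Fin (n + 1) → ℝ := fun p q =>
    ∑ i ∈ t, b i * ((f i : E (n + 1)) p * (f i : E (n + 1)) q) with hM'
  have e0 : ∀ p q, s(p, q) ≠ s((0 : Fin (n + 1)), 0) → M p q = M' p q := by
    intro p q hpq
    exact hΦ (Sum.inr ⟨s(p, q), hpq⟩)
  have tr : ∀ c : Sph k → ℝ, ∑ i ∈ t, c i = 1 →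
      ∑ p, ∑ i ∈ t, c i * ((f i : E (n + 1)) p * (f i : E (n + 1)) p) = 1 := by
    intro c hc
    rw [Finset.sum_comm, ← hc]
    apply Finset.sum_congr rfl
    intro i _
    rw [← Finset.mul_sum]
    have := sum_sq_sph (f i)
    simp only [sq] at this
    rw [this, mul_one]
  have trM : ∑ p, M p p = 1 := tr a hat
  have trM' : ∑ p, M' p p = 1 := tr b hbt
  have e1 : ∀ p q, M p q = M' p q := by
    intro p q
    by_cases hpq : s(p, q) = s((0 : Fin (n + 1)), 0)
    · have h3 : p = 0 ∧ q = 0 := by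
        rw [Sym2.eq_iff] at hpq
        rcases hpq with h | h <;> exact h
      rw [h3.1, h3.2]
      rw [Fin.sum_univ_succ] at trM trM'
      have h4 : ∑ i : Fin n, M i.succ i.succ = ∑ i : Fin n, M' i.succ i.succ := by
        apply Finset.sum_congr rfl
        intro i _
        apply e0
        intro h
        rw [Sym2.eq_iff] at h
        rcases h with h | h <;> exact Fin.succ_ne_zero i h.1
      linarith
    · exact e0 p q hpq
  -- the mean of the squared inner product
  have h5 : ∑ i ∈ t, ∑ j ∈ t, a i * b j * ⟪(f i : E (n + 1)), (f j : E (n + 1))⟫ ^ 2 =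
      ∑ p, ∑ q, M p q * M' p q := by
    have e2 : ∀ i j, ⟪(f i : E (n + 1)), (f j : E (n + 1))⟫ ^ 2 =
        ∑ p, ∑ q, ((f i : E (n + 1)) p * (f i : E (n + 1)) q) *
          ((f j : E (n + 1)) p * (f j : E (n + 1)) q) := by
      intro i j
      rw [inner_eq_sum, sq, Finset.sum_mul_sum]
      apply Finset.sum_congr rfl
      intro p _
      apply Finset.sum_congr rfl
      intro q _
      ring
    have e3 : ∀ p q, M p q * M' p q = ∑ i ∈ t, ∑ j ∈ t, a i * b j *
        (((f i : E (n + 1)) p * (f i : E (n + 1)) q) *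
          ((f j : E (n + 1)) p * (f j : E (n + 1)) q)) := by
      intro p q
      simp only [hM, hM']
      rw [Finset.sum_mul_sum]
      apply Finset.sum_congr rfl
      intro i _
      apply Finset.sum_congr rfl
      intro j _
      ring
    simp only [e2, e3, Finset.mul_sum]
    have sw : ∀ F : Sph k → Sph k → Fin (n + 1) → Fin (n + 1) → ℝ,
        ∑ i ∈ t, ∑ j ∈ t, ∑ p, ∑ q, F i j p q = ∑ p, ∑ q, ∑ i ∈ t, ∑ j ∈ t, F i j p q := by
      intro F
      calc ∑ i ∈ t, ∑ j ∈ t, ∑ p, ∑ q, F i j p q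
          = ∑ i ∈ t, ∑ p, ∑ j ∈ t, ∑ q, F i j p q :=
            Finset.sum_congr rfl fun i _ => Finset.sum_comm
        _ = ∑ p, ∑ i ∈ t, ∑ j ∈ t, ∑ q, F i j p q := Finset.sum_comm
        _ = ∑ p, ∑ i ∈ t, ∑ q, ∑ j ∈ t, F i j p q :=
            Finset.sum_congr rfl fun p _ => Finset.sum_congr rfl fun i _ => Finset.sum_comm
        _ = ∑ p, ∑ q, ∑ i ∈ t, ∑ j ∈ t, F i j p q :=
            Finset.sum_congr rfl fun p _ => Finset.sum_comm
    exact sw fun i j p q => a i * b j * (((f i : E (n + 1)) p * (f i : E (n + 1)) q) *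
          ((f j : E (n + 1)) p * (f j : E (n + 1)) q))
  have h6 : 1 / ((n : ℝ) + 1) ≤ ∑ p, ∑ q, M p q * M' p q := by
    have h7 : ∑ p, M p p ^ 2 ≤ ∑ p, ∑ q, M p q * M' p q := by
      apply Finset.sum_le_sum
      intro p _
      have h8 : M p p * M' p p ≤ ∑ q, M p q * M' p q :=
        Finset.single_le_sum (f := fun q => M p q * M' p q)
          (fun q _ => by rw [← e1 p q]; exact mul_self_nonneg _) (Finset.mem_univ p)
      rw [← e1 p p, ← sq] at h8
      exact h8
    have h9 := sq_sum_le_card_mul_sum_sq (s := Finset.univ) (f := fun p => M p p)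
    rw [trM] at h9
    simp only [Finset.card_univ, Fintype.card_fin, one_pow] at h9
    push_cast at h9
    rw [div_le_iff₀ hn]
    nlinarith
  -- the chord inequality
  have h10 : ∑ i ∈ t, ∑ j ∈ t, a i * b j * ⟪(f i : E (n + 1)), (f j : E (n + 1))⟫ ^ 2 ≤
      ∑ i ∈ t, ∑ j ∈ t, (a i * b j * ((s - 1) * ⟪(f i : E (n + 1)), (f j : E (n + 1))⟫) +
        a i * b j * s) := by
    apply Finset.sum_le_sum
    intro i _
    apply Finset.sum_le_sum
    intro j _
    by_cases hi : a i = 0
    · rw [hi]; simp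
    · by_cases hj : b j = 0
      · rw [hj]; simp
      · rw [← mul_add]
        apply mul_le_mul_of_nonneg_left _ (mul_nonneg (ha i) (hb j))
        have h11 := hab i j hi hj
        have h12 := (inner_le_one (f i) (f j)).1
        nlinarith
  have h13 : ∑ i ∈ t, ∑ j ∈ t, (a i * b j * ((s - 1) * ⟪(f i : E (n + 1)), (f j : E (n + 1))⟫) +
        a i * b j * s) =
      (s - 1) * ∑ i ∈ t, ∑ j ∈ t, a i * b j * ⟪(f i : E (n + 1)), (f j : E (n + 1))⟫ + s := by
    simp only [Finset.sum_add_distrib]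
    congr 1
    · rw [Finset.mul_sum]
      apply Finset.sum_congr rfl
      intro i _
      rw [Finset.mul_sum]
      apply Finset.sum_congr rfl
      intro j _
      ring
    · have : ∀ i ∈ t, ∑ j ∈ t, a i * b j * s = a i * s := by
        intro i _
        rw [← Finset.sum_mul, ← Finset.mul_sum, hbt, mul_one]
      rw [Finset.sum_congr rfl this, ← Finset.sum_mul, hat, one_mul]
  nlinarith

/-- the upper bound `arccos (1 / (n + 1))` -/
theorem alphaStar_le_second {k n : ℕ} (hkn : (n + 1) + (n + 2).choose 2 ≤ k + 1) {r : ℝ}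
    (hr0 : 0 < r) (hr1 : r < Real.pi) : alphaStar k n r ≤ Real.arccos (1 / (n + 1)) := by
  unfold alphaStar
  apply Real.sSup_le
  · rintro α ⟨h0, h1, ⟨f⟩⟩
    by_contra hcon
    push Not at hcon
    have h2 := (hom_iff hr0 hr1.le h0 h1 f).1 fun x y h => f.map_rel h
    have hn : (0 : ℝ) < n + 1 := by positivity
    have h3 : Real.cos α < 1 / (n + 1) := by
      have h4 := Real.cos_lt_cos_of_nonneg_of_le_pi (Real.arccos_nonneg _) h1 hcon
      have h5 : (1 : ℝ) / (n + 1) ≤ 1 := by
        rw [div_le_one hn]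
        have : (0 : ℝ) ≤ n := Nat.cast_nonneg n
        linarith
      have h6 : (0 : ℝ) ≤ 1 / (n + 1) := by positivity
      rwa [Real.cos_arccos (by linarith) h5] at h4
    exact no_small hkn hr0 hr1 h3 f h2
  · exact Real.arccos_nonneg _

end Pool.Agent.Helper55K1.BG
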