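import Mathlib
import Pool.Agent.Helper55K1.BG.Second

set_option autoImplicit false

/-!
# Maxima and minima of quadratic functions on a sphere

For a quadratic function on the unit sphere, the inner product of a maximum point and a minimum
point is at most `0`, unless the function is constant.
-/

namespace Pool.Agent.Helper55K1.BG

open Metric InnerProductGeometry Pool.Agent.H370R3.SphereTools
open scoped RealInnerProductSpace

/-- first order condition along a circle -/
theorem first_order {A B C D F : ℝ}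
    (h : ∀ t : ℝ, A * Real.cos t ^ 2 + 2 * B * (Real.sin t * Real.cos t) + C * Real.sin t ^ 2 +
      D * Real.cos t + F * Real.sin t ≤ A + D) : 2 * B + F = 0 := by
  have h1 : HasDerivAt (fun t : ℝ => A * Real.cos t ^ 2 + 2 * B * (Real.sin t * Real.cos t) +
      C * Real.sin t ^ 2 + D * Real.cos t + F * Real.sin t)
      (A * ((2 : ℕ) * Real.cos 0 ^ (2 - 1) * (-Real.sin 0)) +
        2 * B * (Real.cos 0 * Real.cos 0 + Real.sin 0 * (-Real.sin 0)) +
        C * ((2 : ℕ) * Real.sin 0 ^ (2 - 1) * Real.cos 0) + D * (-Real.sin 0) +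
        F * Real.cos 0) 0 := by
    have c := Real.hasDerivAt_cos 0
    have s := Real.hasDerivAt_sin 0
    exact (((((c.pow 2).const_mul A).add ((s.mul c).const_mul (2 * B))).add
      ((s.pow 2).const_mul C)).add (c.const_mul D)).add (s.const_mul F)
  have h2 : IsLocalMax (fun t : ℝ => A * Real.cos t ^ 2 + 2 * B * (Real.sin t * Real.cos t) +
      C * Real.sin t ^ 2 + D * Real.cos t + F * Real.sin t) 0 := by
    apply Filter.Eventually.of_forall
    intro t
    simp only [Real.cos_zero, Real.sin_zero]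
    have := h t
    nlinarith
  have h3 := h2.hasDerivAt_eq_zero h1
  simp only [Real.cos_zero, Real.sin_zero] at h3
  norm_num at h3
  linarith

variable {n : ℕ}

/-- Let `Q` be a symmetric bilinear form and `ℓ` a linear form.  If `a` is a maximum point and `b`
a minimum point of `Q u u + ℓ u` on the unit sphere and the inner product of `a` and `b` is
positive, then the values at `a` and `b` are equal. -/
theorem max_min (Q : E (n + 1) →ₗ[ℝ] E (n + 1) →ₗ[ℝ] ℝ) (hQ : ∀ u w, Q u w = Q w u)
    (ℓ : E (n + 1) →ₗ[ℝ] ℝ) (a b : E (n + 1)) (ha : ‖a‖ = 1) (hb : ‖b‖ = 1)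
    (hmax : ∀ u : E (n + 1), ‖u‖ = 1 → Q u u + ℓ u ≤ Q a a + ℓ a)
    (hmin : ∀ u : E (n + 1), ‖u‖ = 1 → Q b b + ℓ b ≤ Q u u + ℓ u)
    (hc : 0 < ⟪a, b⟫) : Q a a + ℓ a = Q b b + ℓ b := by
  set c := ⟪a, b⟫ with hcdef
  by_cases hab : a = b
  · rw [hab]
  -- comparison with the antipodal points
  have k1 : 0 ≤ ℓ a := by
    have := hmax (-a) (by rw [norm_neg, ha])
    simp only [map_neg, LinearMap.neg_apply, neg_neg] at this
    linarith
  have k2 : ℓ b ≤ 0 := by
    have := hmin (-b) (by rw [norm_neg, hb])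
    simp only [map_neg, LinearMap.neg_apply, neg_neg] at this
    linarith
  have k3 : Q b b - ℓ b ≤ Q a a + ℓ a := by
    have := hmax (-b) (by rw [norm_neg, hb])
    simp only [map_neg, LinearMap.neg_apply, neg_neg] at this
    linarith
  have k4 : Q b b + ℓ b ≤ Q a a - ℓ a := by
    have := hmin (-a) (by rw [norm_neg, ha])
    simp only [map_neg, LinearMap.neg_apply, neg_neg] at this
    linarith
  -- first order conditions
  have hc1 : c < 1 := by
    have h1 := real_inner_le_norm a b
    rw [ha, hb, mul_one] at h1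
    rcases lt_or_eq_of_le h1 with h2 | h2
    · exact h2
    · exact absurd ((inner_eq_one_iff_of_norm_eq_one ha hb).1 h2) hab
  have hpos : 0 < 1 - c ^ 2 := by nlinarith
  set ρ := √(1 - c ^ 2) with hρ
  have hρ0 : 0 < ρ := Real.sqrt_pos.2 hpos
  have hρ2 : ρ ^ 2 = 1 - c ^ 2 := Real.sq_sqrt hpos.le
  have fo : ∀ (Q' : E (n + 1) →ₗ[ℝ] E (n + 1) →ₗ[ℝ] ℝ) (_ : ∀ u w, Q' u w = Q' w u)
      (ℓ' : E (n + 1) →ₗ[ℝ] ℝ) (p q : E (n + 1)), ‖p‖ = 1 → ‖q‖ = 1 → ⟪p, q⟫ = c →
      (∀ u : E (n + 1), ‖u‖ = 1 → Q' u u + ℓ' u ≤ Q' p p + ℓ' p) →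
      2 * Q' p q + ℓ' q = c * (2 * Q' p p + ℓ' p) := by
    intro Q' hQ' ℓ' p q hp hq hpq hm
    set w : E (n + 1) := ρ⁻¹ • (q - c • p) with hw
    have hpp : ⟪p, p⟫ = (1 : ℝ) := by rw [real_inner_self_eq_norm_sq, hp]; norm_num
    have hqq : ⟪q, q⟫ = (1 : ℝ) := by rw [real_inner_self_eq_norm_sq, hq]; norm_num
    have hpw : ⟪p, w⟫ = 0 := by
      rw [hw, real_inner_smul_right, inner_sub_right, real_inner_smul_right, hpq, hpp]
      ring
    have hww : ⟪w, w⟫ = 1 := by
      rw [hw, real_inner_smul_left, real_inner_smul_right, inner_sub_left, inner_sub_right,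
        inner_sub_right, real_inner_smul_left, real_inner_smul_left, real_inner_smul_right,
        real_inner_smul_right, hqq, hpp, hpq, real_inner_comm p q, hpq]
      field_simp
      rw [hρ2]
      ring
    have key := first_order (A := Q' p p) (B := Q' p w) (C := Q' w w) (D := ℓ' p) (F := ℓ' w) (by
      intro t
      have hn : ‖Real.cos t • p + Real.sin t • w‖ = 1 := by
        have h1 : ‖Real.cos t • p + Real.sin t • w‖ ^ 2 = 1 := by
          rw [← real_inner_self_eq_norm_sq, inner_add_left, inner_add_right, inner_add_right]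
          simp only [real_inner_smul_left, real_inner_smul_right]
          rw [hpp, hww, hpw, real_inner_comm p w, hpw]
          have := Real.sin_sq_add_cos_sq t
          nlinarith
        have h2 := norm_nonneg (Real.cos t • p + Real.sin t • w)
        nlinarith
      have h3 := hm _ hn
      simp only [map_add, map_smul, LinearMap.add_apply, LinearMap.smul_apply, smul_eq_mul] at h3
      rw [hQ' w p] at h3
      nlinarith)
    have e1 : Q' p w = ρ⁻¹ * (Q' p q - c * Q' p p) := by
      rw [hw]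
      simp only [map_smul, map_sub, smul_eq_mul]
    have e2 : ℓ' w = ρ⁻¹ * (ℓ' q - c * ℓ' p) := by
      rw [hw]
      simp only [map_smul, map_sub, smul_eq_mul]
    rw [e1, e2] at key
    have h4 : ρ⁻¹ * (2 * (Q' p q - c * Q' p p) + (ℓ' q - c * ℓ' p)) = 0 := by linarith
    rcases mul_eq_zero.1 h4 with h5 | h5
    · exact absurd h5 (inv_pos.2 hρ0).ne'
    · linarith
  have f1 := fo Q hQ ℓ a b ha hb rfl hmax
  have f2 := fo (-Q) (fun u w => by simp [hQ u w]) (-ℓ) b a hb ha (real_inner_comm a b ▸ rfl) (by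
    intro u hu
    have := hmin u hu
    simp only [LinearMap.neg_apply]
    linarith)
  simp only [LinearMap.neg_apply] at f2
  rw [hQ b a] at f2
  -- combine
  have h1 : (1 + c) * (ℓ a - ℓ b) = -(2 * c) * (Q a a - Q b b) := by linarith
  have h2 : 0 ≤ Q a a - Q b b := by linarith
  have h3 : 0 ≤ c * (Q a a - Q b b) := mul_nonneg hc.le h2
  have h4 : 0 ≤ (1 + c) * (ℓ a - ℓ b) := mul_nonneg (by linarith) (by linarith)
  have h5 : c * (Q a a - Q b b) = 0 := by linarith
  have h6 : (1 + c) * (ℓ a - ℓ b) = 0 := by linarith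
  rcases mul_eq_zero.1 h5 with h7 | h7
  · exact absurd h7 hc.ne'
  · rcases mul_eq_zero.1 h6 with h8 | h8
    · linarith
    · linarith

end Pool.Agent.Helper55K1.BG
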