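import Mathlib
import Pool.Agent.Helper55K1.BG.Quad
import Pool.Agent.Helper55K1.BG.Lower

set_option autoImplicit false

/-!
# Homomorphisms from maximum points of quadratic functions
-/

namespace Pool.Agent.Helper55K1.BG

open Metric InnerProductGeometry Pool.Agent.H370R3.SphereTools Filter Topology
open scoped RealInnerProductSpace

section
variable {k n : ℕ} (ι : Fin (k + 1) ↪ Idx n)

/-- the coefficients -/
noncomputable def cf (x : E (k + 1)) (z : Idx n) : ℝ := Function.extend ι (fun i => x i) 0 z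

theorem cf_apply (x : E (k + 1)) (i : Fin (k + 1)) : cf ι x (ι i) = x i :=
  ι.injective.extend_apply _ _ _

theorem cf_cont (z : Idx n) : Continuous fun x => cf ι x z := by
  classical
  by_cases h : ∃ i, ι i = z
  · obtain ⟨i, rfl⟩ := h
    simp only [cf_apply]
    fun_prop
  · have : ∀ x : E (k + 1), cf ι x z = 0 := fun x => Function.extend_apply' _ _ _ h
    simp only [this]
    exact continuous_const

theorem cf_neg (x : E (k + 1)) (z : Idx n) : cf ι (-x) z = -cf ι x z := by
  classical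
  by_cases h : ∃ i, ι i = z
  · obtain ⟨i, rfl⟩ := h
    rw [cf_apply, cf_apply]
    rfl
  · have : ∀ x : E (k + 1), cf ι x z = 0 := fun x => Function.extend_apply' _ _ _ h
    rw [this, this, neg_zero]

/-- the matrix of the quadratic part -/
noncomputable def Mx (x : E (k + 1)) (p q : Fin (n + 1)) : ℝ :=
  if h : s(p, q) ≠ s((0 : Fin (n + 1)), 0) then cf ι x (Sum.inr ⟨s(p, q), h⟩) else 0

theorem Mx_symm (x : E (k + 1)) (p q : Fin (n + 1)) : Mx ι x p q = Mx ι x q p := by
  unfold Mx
  simp only [Sym2.eq_swap (a := p) (b := q)]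

theorem Mx_neg (x : E (k + 1)) (p q : Fin (n + 1)) : Mx ι (-x) p q = -Mx ι x p q := by
  unfold Mx
  split_ifs with h
  · exact cf_neg ι x _
  · rw [neg_zero]

theorem Mx_cont (p q : Fin (n + 1)) : Continuous fun x => Mx ι x p q := by
  unfold Mx
  split_ifs with h
  · exact cf_cont ι _
  · exact continuous_const

/-- the bilinear form -/
noncomputable def Qf (x : E (k + 1)) : E (n + 1) →ₗ[ℝ] E (n + 1) →ₗ[ℝ] ℝ :=
  LinearMap.mk₂ ℝ (fun u w => ∑ p, ∑ q, Mx ι x p q * (u p * w q))
    (fun u v w => by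
      simp only [PiLp.add_apply, add_mul, mul_add, Finset.sum_add_distrib])
    (fun c u w => by
      simp only [PiLp.smul_apply, smul_eq_mul, Finset.mul_sum]
      exact Finset.sum_congr rfl fun p _ => Finset.sum_congr rfl fun q _ => by ring)
    (fun u v w => by
      simp only [PiLp.add_apply, mul_add, Finset.sum_add_distrib])
    (fun c u w => by
      simp only [PiLp.smul_apply, smul_eq_mul, Finset.mul_sum]
      exact Finset.sum_congr rfl fun p _ => Finset.sum_congr rfl fun q _ => by ring)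

theorem Qf_apply (x : E (k + 1)) (u w : E (n + 1)) :
    Qf ι x u w = ∑ p, ∑ q, Mx ι x p q * (u p * w q) := rfl

/-- the linear form -/
noncomputable def lf (x : E (k + 1)) : E (n + 1) →ₗ[ℝ] ℝ where
  toFun u := ∑ j, cf ι x (Sum.inl j) * u j
  map_add' u v := by
    simp only [PiLp.add_apply, mul_add, Finset.sum_add_distrib]
  map_smul' c u := by
    simp only [PiLp.smul_apply, smul_eq_mul, Finset.mul_sum, RingHom.id_apply]
    exact Finset.sum_congr rfl fun p _ => by ring

theorem lf_apply (x : E (k + 1)) (u : E (n + 1)) :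
    lf ι x u = ∑ j, cf ι x (Sum.inl j) * u j := rfl

theorem Qf_symm (x : E (k + 1)) (u w : E (n + 1)) : Qf ι x u w = Qf ι x w u := by
  rw [Qf_apply, Qf_apply, Finset.sum_comm]
  apply Finset.sum_congr rfl
  intro p _
  apply Finset.sum_congr rfl
  intro q _
  rw [Mx_symm ι x q p]
  ring

/-- the quadratic function of the point `x` -/
noncomputable def Fx (x : E (k + 1)) (u : E (n + 1)) : ℝ := Qf ι x u u + lf ι x u

theorem Fx_def (x : E (k + 1)) (u : E (n + 1)) : Fx ι x u = Qf ι x u u + lf ι x u := rfl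

theorem Fx_cont : Continuous fun p : E (k + 1) × E (n + 1) => Fx ι p.1 p.2 := by
  unfold Fx
  simp only [Qf_apply, lf_apply]
  have h1 := Mx_cont ι
  have h2 := cf_cont ι
  have e1 : ∀ p q, Continuous fun y : E (k + 1) × E (n + 1) => Mx ι y.1 p q :=
    fun p q => (h1 p q).comp continuous_fst
  have e2 : ∀ z, Continuous fun y : E (k + 1) × E (n + 1) => cf ι y.1 z :=
    fun z => (h2 z).comp continuous_fst
  have e3 : ∀ p, Continuous fun y : E (k + 1) × E (n + 1) => y.2 p := fun p => by fun_prop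
  exact (continuous_finsetSum _ fun p _ => continuous_finsetSum _ fun q _ =>
    (e1 p q).mul ((e3 p).mul (e3 q))).add (continuous_finsetSum _ fun j _ => (e2 _).mul (e3 j))

theorem Fx_neg (x : E (k + 1)) (u : E (n + 1)) : Fx ι (-x) u = -Fx ι x u := by
  unfold Fx
  rw [Qf_apply, Qf_apply, lf_apply, lf_apply]
  simp only [Mx_neg, cf_neg, neg_mul, Finset.sum_neg_distrib]
  ring

theorem Qf_single (x : E (k + 1)) (p q : Fin (n + 1)) :
    Qf ι x (EuclideanSpace.single p 1) (EuclideanSpace.single q 1) = Mx ι x p q := by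
  rw [Qf_apply, Finset.sum_eq_single p, Finset.sum_eq_single q]
  · simp
  · intro j _ hj
    simp [hj]
  · simp
  · intro i _ hi
    apply Finset.sum_eq_zero
    intro j _
    simp [hi]
  · simp

theorem lf_single (x : E (k + 1)) (p : Fin (n + 1)) :
    lf ι x (EuclideanSpace.single p 1) = cf ι x (Sum.inl p) := by
  rw [lf_apply, Finset.sum_eq_single p]
  · simp
  · intro j _ hj
    simp [hj]
  · simp

/-- the quadratic function of a nonzero point is not constant on the sphere -/
theorem Fx_nonconst (x : E (k + 1)) (K : ℝ) (h : ∀ u : E (n + 1), ‖u‖ = 1 → Fx ι x u = K) :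
    x = 0 := by
  have hs : ∀ p : Fin (n + 1), ‖(EuclideanSpace.single p (1 : ℝ) : E (n + 1))‖ = 1 := by
    intro p; simp
  have h1 : ∀ p, cf ι x (Sum.inl p) = 0 ∧ Mx ι x p p = K := by
    intro p
    have e1 := h _ (hs p)
    have e2 := h (-EuclideanSpace.single p (1 : ℝ)) (by rw [norm_neg, hs])
    unfold Fx at e1 e2
    simp only [map_neg, LinearMap.neg_apply, neg_neg] at e2
    rw [Qf_single, lf_single] at e1 e2
    constructor <;> linarith
  have hK : K = 0 := by
    rw [← (h1 0).2]
    unfold Mx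
    rw [dif_neg (by simp)]
  have h2 : ∀ p q, Mx ι x p q = 0 := by
    intro p q
    by_cases hpq : p = q
    · rw [← hpq, (h1 p).2, hK]
    · set u : E (n + 1) := (√2)⁻¹ • (EuclideanSpace.single p (1 : ℝ) + EuclideanSpace.single q 1)
        with hu
      have hsq : (√2 : ℝ)⁻¹ * (√2)⁻¹ = 1 / 2 := by
        rw [← mul_inv, Real.mul_self_sqrt (by norm_num)]
        norm_num
      have hn : ‖u‖ = 1 := by
        have h3 : ‖u‖ ^ 2 = 1 := by
          rw [← real_inner_self_eq_norm_sq, hu, real_inner_smul_left, real_inner_smul_right,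
            inner_add_left, inner_add_right, inner_add_right]
          simp only [EuclideanSpace.inner_single_left, PiLp.single_apply, map_one]
          rw [if_neg hpq, if_neg (Ne.symm hpq)]
          simp only [if_true]
          rw [← mul_assoc, hsq]
          norm_num
        have h4 := norm_nonneg u
        nlinarith
      have h3 := h u hn
      unfold Fx at h3
      rw [hu] at h3
      simp only [map_smul, map_add, LinearMap.smul_apply, LinearMap.add_apply, smul_eq_mul] at h3
      rw [Qf_single, Qf_single, Qf_single, Qf_single, lf_single, lf_single, (h1 p).1, (h1 q).1,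
        (h1 p).2, (h1 q).2, hK, Mx_symm ι x q p] at h3
      have h4 : (√2 : ℝ)⁻¹ * (√2)⁻¹ * (2 * Mx ι x p q) = 0 := by linarith
      rw [hsq] at h4
      linarith
  ext i
  have h3 : cf ι x (ι i) = 0 := by
    rcases hz : ι i with j | ⟨z, hz0⟩
    · exact (h1 j).1
    · induction z using Sym2.ind with
      | _ p q =>
        have := h2 p q
        unfold Mx at this
        rwa [dif_pos hz0] at this
  rw [cf_apply] at h3
  exact h3

end

attribute [irreducible] Fx

theorem Fx_cont_sph {k n : ℕ} (ι : Fin (k + 1) ↪ Idx n) :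
    Continuous fun p : Sph k × Sph n => Fx ι (p.1 : E (k + 1)) (p.2 : E (n + 1)) := by
  have hpair : Continuous fun p : Sph k × Sph n => ((p.1 : E (k + 1)), (p.2 : E (n + 1))) :=
    (continuous_subtype_val.comp continuous_fst).prodMk (continuous_subtype_val.comp continuous_snd)
  exact Continuous.comp (g := fun y : E (k + 1) × E (n + 1) => Fx ι y.1 y.2)
    (f := fun p : Sph k × Sph n => ((p.1 : E (k + 1)), (p.2 : E (n + 1)))) (Fx_cont ι) hpair

/-- For `k + 1 ≤ (n² + 5n + 2)/2` there are homomorphisms `B(S^k; r) → B(S^n; arccos ε)` for `r`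
near `π`. -/
theorem exists_near {k n : ℕ} (hkn : k + 1 + 1 ≤ (n + 1) + (n + 2).choose 2) {ε : ℝ} (hε : 0 < ε) :
    ∃ f : Sph k → Sph n, ∃ m : ℝ, -1 < m ∧ m ≤ 1 ∧ ∀ x y : Sph k,
      ⟪(x : E (k + 1)), (y : E (k + 1))⟫ < m →
        ⟪(f x : E (n + 1)), (f y : E (n + 1))⟫ ≤ ε := by
  obtain ⟨ι⟩ : Nonempty (Fin (k + 1) ↪ Idx n) :=
    Function.Embedding.nonempty_of_card_le (by
      rw [Fintype.card_fin]
      have := card_Idx n
      omega)
  have hcont := Fx_cont_sph ι
  have hne : Nonempty (Sph n) := ⟨⟨EuclideanSpace.single 0 1, by simp⟩⟩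
  have hmax : ∀ x : Sph k, ∃ a : Sph n, ∀ u : Sph n, Fx ι x u ≤ Fx ι x a := by
    intro x
    have h1 : Continuous fun u : Sph n => Fx ι x u :=
      hcont.comp (continuous_const.prodMk continuous_id)
    obtain ⟨a, -, ha⟩ := (isCompact_univ (X := Sph n)).exists_isMaxOn Set.univ_nonempty
      h1.continuousOn
    exact ⟨a, fun u => ha (Set.mem_univ u)⟩
  choose f hf using hmax
  set C : Set ((Sph k × Sph k) × (Sph n × Sph n)) :=
    {p | (∀ u : Sph n, Fx ι p.1.1 u ≤ Fx ι p.1.1 p.2.1) ∧
      (∀ u : Sph n, Fx ι p.1.2 u ≤ Fx ι p.1.2 p.2.2) ∧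
      ε ≤ ⟪(p.2.1 : E (n + 1)), (p.2.2 : E (n + 1))⟫} with hC
  have hCc : IsClosed C := by
    have c1 : IsClosed {p : (Sph k × Sph k) × (Sph n × Sph n) |
        ∀ u : Sph n, Fx ι p.1.1 u ≤ Fx ι p.1.1 p.2.1} := by
      rw [Set.ofPred_forall]
      apply isClosed_iInter
      intro u
      apply isClosed_le
      · exact hcont.comp ((continuous_fst.comp continuous_fst).prodMk continuous_const)
      · exact hcont.comp ((continuous_fst.comp continuous_fst).prodMk
          (continuous_fst.comp continuous_snd))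
    have c2 : IsClosed {p : (Sph k × Sph k) × (Sph n × Sph n) |
        ∀ u : Sph n, Fx ι p.1.2 u ≤ Fx ι p.1.2 p.2.2} := by
      rw [Set.ofPred_forall]
      apply isClosed_iInter
      intro u
      apply isClosed_le
      · exact hcont.comp ((continuous_snd.comp continuous_fst).prodMk continuous_const)
      · exact hcont.comp ((continuous_snd.comp continuous_fst).prodMk
          (continuous_snd.comp continuous_snd))
    have c3 : IsClosed {p : (Sph k × Sph k) × (Sph n × Sph n) |
        ε ≤ ⟪(p.2.1 : E (n + 1)), (p.2.2 : E (n + 1))⟫} := by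
      apply isClosed_le continuous_const
      fun_prop
    exact c1.inter (c2.inter c3)
  have hin : ∀ x y : Sph k, ε < ⟪(f x : E (n + 1)), (f y : E (n + 1))⟫ →
      ((x, y), (f x, f y)) ∈ C := fun x y h => ⟨hf x, hf y, h.le⟩
  by_cases hCne : C.Nonempty
  · have hg : Continuous fun p : (Sph k × Sph k) × (Sph n × Sph n) =>
        ⟪(p.1.1 : E (k + 1)), (p.1.2 : E (k + 1))⟫ := by fun_prop
    obtain ⟨p, hp, hpm⟩ := hCc.isCompact.exists_isMinOn hCne hg.continuousOn
    refine ⟨f, ⟪(p.1.1 : E (k + 1)), (p.1.2 : E (k + 1))⟫, ?_, (inner_le_one _ _).2, ?_⟩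
    · -- the minimum is larger than `-1`
      by_contra hcon
      have hm1 : ⟪(p.1.1 : E (k + 1)), (p.1.2 : E (k + 1))⟫ = -1 :=
        le_antisymm (not_lt.1 hcon) (inner_le_one _ _).1
      have hanti : (p.1.2 : E (k + 1)) = -(p.1.1 : E (k + 1)) := by
        have h1 : ⟪(p.1.1 : E (k + 1)), -(p.1.2 : E (k + 1))⟫ = 1 := by
          rw [inner_neg_right, hm1, neg_neg]
        have h2 := (inner_eq_one_iff_of_norm_eq_one (norm_sph _)
          (by rw [norm_neg, norm_sph])).1 h1
        rw [h2, neg_neg]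
      obtain ⟨h1, h2, h3⟩ := hp
      have h4 := max_min (Qf ι p.1.1) (Qf_symm ι _) (lf ι p.1.1) p.2.1 p.2.2 (norm_sph _)
        (norm_sph _) (fun u hu => by
          have h5 := h1 ⟨u, mem_sphere_zero_iff_norm.2 hu⟩
          rwa [Fx_def, Fx_def] at h5) (fun u hu => by
          have h5 := h2 ⟨u, mem_sphere_zero_iff_norm.2 hu⟩
          rw [hanti, Fx_neg, Fx_neg] at h5
          have h6 : Fx ι p.1.1 p.2.2 ≤ Fx ι p.1.1 u := by linarith
          rwa [Fx_def, Fx_def] at h6) (lt_of_lt_of_le hε h3)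
      rw [← Fx_def, ← Fx_def] at h4
      have h5 : (p.1.1 : E (k + 1)) = 0 := by
        apply Fx_nonconst ι _ (Fx ι p.1.1 p.2.1)
        intro u hu
        have h6 := h1 ⟨u, mem_sphere_zero_iff_norm.2 hu⟩
        have h7 := h2 ⟨u, mem_sphere_zero_iff_norm.2 hu⟩
        rw [hanti, Fx_neg, Fx_neg] at h7
        have h8 : Fx ι p.1.1 p.2.1 = Fx ι p.1.1 p.2.2 := h4
        apply le_antisymm h6
        rw [h8]
        linarith
      have h6 := norm_sph p.1.1
      rw [h5, norm_zero] at h6
      exact absurd h6 (by norm_num)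
    · intro x y hxy
      by_contra hcon
      push Not at hcon
      have := hpm (hin x y hcon)
      simp only [Set.mem_ofPred_eq] at this
      linarith
  · refine ⟨f, 1, by norm_num, le_rfl, fun x y _ => ?_⟩
    by_contra hcon
    push Not at hcon
    exact hCne ⟨_, hin x y hcon⟩

/-- the limit as `r → π` -/
theorem tendsto_alphaStar {k n : ℕ} (hnk : n < k)
    (hkn : k + 1 + 1 ≤ (n + 1) + (n + 2).choose 2) :
    Tendsto (fun r => alphaStar k n r) (𝓝[<] Real.pi) (𝓝 (Real.pi / 2)) := by
  have hpi := Real.pi_pos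
  rw [tendsto_order]
  constructor
  · intro β hβ
    -- choose `ε` with `arccos ε > β`
    obtain ⟨ε, hε0, hε1, hεβ⟩ : ∃ ε : ℝ, 0 < ε ∧ ε < 1 ∧ β < Real.arccos ε := by
      have h1 : Tendsto Real.arccos (𝓝 0) (𝓝 (Real.pi / 2)) := by
        have := Real.continuous_arccos.tendsto 0
        rwa [Real.arccos_zero] at this
      have h2 : ∀ᶠ ε in 𝓝[>] (0 : ℝ), β < Real.arccos ε :=
        (h1.eventually (lt_mem_nhds hβ)).filter_mono nhdsWithin_le_nhds
      have h3 : ∀ᶠ ε in 𝓝[>] (0 : ℝ), 0 < ε ∧ ε < 1 := by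
        filter_upwards [Ioo_mem_nhdsGT (show (0:ℝ) < 1 by norm_num)] with s hs
        exact ⟨hs.1, hs.2⟩
      obtain ⟨ε, ⟨h4, h5⟩, h6⟩ := (h3.and h2).exists
      exact ⟨ε, h4, h5, h6⟩
    obtain ⟨f, m, hm, hm1, hfm⟩ := exists_near (k := k) (n := n) hkn hε0
    have hr : Real.arccos ((m - 1) / 2) < Real.pi := by
      rw [Real.arccos_lt_pi]
      linarith
    filter_upwards [Ioo_mem_nhdsLT hr] with r hr2
    have hr0 : 0 < r := lt_of_le_of_lt (Real.arccos_nonneg _) hr2.1
    have hcos : Real.cos r < m := by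
      have h2 := Real.cos_lt_cos_of_nonneg_of_le_pi (Real.arccos_nonneg _) hr2.2.le hr2.1
      rw [Real.cos_arccos (by linarith) (by linarith)] at h2
      linarith
    have ha0 : 0 < Real.arccos ε := Real.arccos_pos.2 hε1
    refine lt_of_lt_of_le hεβ (le_csSup (bddAbove_set k n r)
      ⟨ha0, Real.arccos_le_pi _, ⟨⟨f, ?_⟩⟩⟩)
    intro x y
    refine (hom_iff hr0 hr2.2.le ha0 (Real.arccos_le_pi _) f).2 ?_ x y
    intro x y hxy
    rw [Real.cos_arccos (by linarith) hε1.le]
    exact hfm x y (by linarith)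
  · intro β hβ
    have h0 : ∀ᶠ r in 𝓝[<] Real.pi, 0 < r ∧ r < Real.pi := by
      filter_upwards [Ioo_mem_nhdsLT hpi] with r hr
      exact ⟨hr.1, hr.2⟩
    filter_upwards [h0] with r hr
    exact lt_of_le_of_lt (alphaStar_le hnk hr.1 hr.2) hβ

end Pool.Agent.Helper55K1.BG
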